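import Pool.Agent.H37.CNL.Stmts

/-!
# Row HAP of the board `cnl` (helper56)
-/

set_option autoImplicit false

namespace Pool.CND

open Finset
open scoped commutatorElement

/-- sum over a group of a function on a quotient -/
theorem hap_sum {H : Type} [Group H] [Fintype H] (N : Subgroup H) [N.Normal] [Fintype (H ⧸ N)]
    (f : H ⧸ N → ℤ) : ∑ h : H, f (QuotientGroup.mk h) = Nat.card N * ∑ q : H ⧸ N, f q := by
  classical
  rw [Finset.mul_sum]
  rw [← Finset.sum_fiberwise_of_maps_to (s := (univ : Finset H)) (t := (univ : Finset (H ⧸ N)))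
    (g := fun h => (QuotientGroup.mk h : H ⧸ N)) (fun _ _ => mem_univ _)]
  apply sum_congr rfl
  intro q _
  have h1 : ∑ h ∈ univ.filter (fun h : H => (QuotientGroup.mk h : H ⧸ N) = q),
      f (QuotientGroup.mk h) = ∑ h ∈ univ.filter (fun h : H => (QuotientGroup.mk h : H ⧸ N) = q), f q :=
    sum_congr rfl (fun h hh => by rw [(mem_filter.1 hh).2])
  rw [h1, sum_const, nsmul_eq_mul]
  congr 1
  have h2 := QuotientGroup.card_preimage_mk N ({q} : Set (H ⧸ N))
  have h3 : Nat.card ((QuotientGroup.mk : H → H ⧸ N) ⁻¹' {q}) =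
      (univ.filter (fun h : H => (QuotientGroup.mk h : H ⧸ N) = q)).card := by
    rw [Nat.card_eq_fintype_card]
    rw [Fintype.card_subtype]
    congr 1
    ext x
    simp
  rw [← h3, h2]
  simp

/-- a sum over a subset of a subgroup -/
theorem hap_sm {G : Type} [Group G] [Fintype G] (H : Subgroup G) [Fintype H] (b : G → ℤ) :
    sm b {g | g ∈ H ∧ g ≠ 1} = sm (fun h : H => b h) {h | h ∈ (⊤ : Subgroup H) ∧ h ≠ 1} := by
  classical
  have e1 : sm b {g | g ∈ H ∧ g ≠ 1} = ∑ h : H, if (h : G) = 1 then 0 else b h := by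
    unfold sm
    have e0 : ∑ g ∈ univ.filter (fun g : G => g ∈ H), (if g = 1 then 0 else b g) =
        ∑ h : H, if (h : G) = 1 then 0 else b h :=
      Finset.sum_subtype _ (fun x => by simp) _
    rw [← e0, Finset.sum_filter, Finset.sum_filter]
    apply sum_congr rfl
    intro g _
    by_cases h1 : g ∈ H
    · by_cases h2 : g = 1
      · simp [h2]
      · simp [h1, h2]
    · simp [h1]
  have e2 : sm (fun h : H => b h) {h | h ∈ (⊤ : Subgroup H) ∧ h ≠ 1} =
      ∑ h : H, if h = 1 then 0 else b h := by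
    unfold sm
    rw [Finset.sum_filter]
    apply sum_congr rfl
    intro q _
    by_cases h1 : q = 1
    · simp [h1]
    · simp [h1]
  rw [e1, e2]
  apply sum_congr rfl
  intro h _
  by_cases h1 : h = 1
  · simp [h1]
  · have h2 : ¬ (h : G) = 1 := fun h3 => h1 (Subtype.ext h3)
    rw [if_neg h1, if_neg h2]

theorem hap_thm (hHAC : S_HAC) (hPEE : S_PEE) (hVSM : S_VSM) (hVCZ : S_VCZ) (hUQT : S_UQT)
    (hUMW : S_UMW) : S_HAP := by
  classical
  intro p k L G _ _ _ _ _ _ ρ t P W H l z hp hch hcov htneg hW hHW hzH hsec hbz hl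
  obtain ⟨H₀, hH₀, hnorm, hzH₀, hcase⟩ := hsec
  rcases hcase with hab | ⟨hp2, hcen⟩
  · -- abelian quotient
    have hcomm : ⁅H, H⁆ ≤ H₀ := by
      rw [Subgroup.commutator_le]
      intro a ha b hb
      rw [commutatorElement_def]
      exact hab b hb a ha
    exact hHAC p k L G P ρ W H l z hp hch hcov.inj hW hHW hzH (fun h => hzH₀ (hcomm h)) hbz hl
  · obtain ⟨s, Δ, hPCE⟩ := hPEE p k L G ρ t P W H hp hch hcov htneg hW hHW
    set M : Subgroup H := H₀.subgroupOf H with hM
    have hMn : M.Normal := ⟨fun n hn g => by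
      rw [hM, Subgroup.mem_subgroupOf] at hn ⊢
      exact hnorm g g.2 n hn⟩
    obtain ⟨E, ρ', t', Q, Δ', -, -, -, -, hPCE', -, hsm⟩ :=
      hVSM p k L H (ρ.comp H.subtype) s P Δ M hPCE
    have hUM := hUMW k L G P ρ W hcov.inj hW
    have hUMH : UM (fun h : H => P.b (ρ h)) (⊤ : Subgroup H) := by
      refine ⟨fun g _ hg => hUM.pos g (hHW g.2) (fun h => hg (Subtype.ext h)),
        fun g _ hg => hUM.inv g (hHW g.2) (fun h => hg (Subtype.ext h)),
        fun g _ g' _ hg hg' hgg => ?_⟩
      exact hUM.mul g (hHW g.2) g' (hHW g'.2) (fun h => hg (Subtype.ext h))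
        (fun h => hg' (Subtype.ext h)) (fun h => hgg (Subtype.ext h))
    let z' : H := ⟨z, hzH⟩
    have hz'M : z' ∉ M := by
      rw [hM, Subgroup.mem_subgroupOf]
      exact hzH₀
    have hlH : IsLst (fun h : H => P.b (ρ h)) (⊤ : Subgroup H) l := by
      constructor
      · refine ⟨z', trivial, ?_, hbz⟩
        intro h
        apply hz'M
        rw [h]
        exact one_mem M
      · intro g _ hg
        exact hl.le g g.2 (fun h => hg (Subtype.ext h))
    let B : H → ℤ := fun h => Q.b (ρ' (h : H ⧸ M))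
    have hB0 : ∀ g ∈ (⊤ : Subgroup H), g ∉ M →
        sm (fun h : H => P.b (ρ h)) {x | g⁻¹ * x ∈ M} = Nat.card M * B g :=
      fun g _ hg => hsm g hg
    obtain ⟨hmax, hU⟩ := hUQT H (fun h : H => P.b (ρ h)) B M ⊤ l z' hUMH le_top
      (fun g _ n hn => hMn.conj_mem n hn g) hB0 hlH trivial hz'M hbz
    have hl' : IsLst (fun q => Q.b (ρ' q)) (⊤ : Subgroup (H ⧸ M)) (B z') := by
      constructor
      · refine ⟨(z' : H ⧸ M), trivial, ?_, rfl⟩
        intro h1
        exact hz'M ((QuotientGroup.eq_one_iff z').1 h1)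
      · intro q _ hq
        induction q using QuotientGroup.induction_on with
        | H h =>
          exact hmax h trivial (fun hh => hq ((QuotientGroup.eq_one_iff h).2 hh))
    have hcen' : ∀ x : H ⧸ M, x ^ p = 1 → x ∈ Subgroup.center (H ⧸ M) := by
      intro x hx
      induction x using QuotientGroup.induction_on with
      | H x =>
        have hxp : ((x : G)) ^ p ∈ H₀ := by
          have h1 : ((x ^ p : H) : H ⧸ M) = 1 := by
            rw [QuotientGroup.mk_pow]
            exact hx
          have h2 := (QuotientGroup.eq_one_iff (x ^ p)).1 h1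
          rw [hM, Subgroup.mem_subgroupOf] at h2
          exact h2
        rw [Subgroup.mem_center_iff]
        intro y
        induction y using QuotientGroup.induction_on with
        | H y =>
          have h3 := hcen x x.2 hxp y y.2
          have h4 : ((y * x * y⁻¹ * x⁻¹ : H) : H ⧸ M) = 1 := by
            rw [QuotientGroup.eq_one_iff, hM, Subgroup.mem_subgroupOf]
            exact h3
          have h5 : (y * x * y⁻¹ * x⁻¹) * (x * y) = y * x := by group
          rw [← QuotientGroup.mk_mul, ← QuotientGroup.mk_mul, ← h5, QuotientGroup.mk_mul, h4,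
            one_mul]
    obtain ⟨n, hn⟩ := hVCZ p k E (H ⧸ M) ρ' t' Q Δ' (B z') hPCE' hp2 hcen' hl'
    refine ⟨n, ?_⟩
    have hcH : Nat.card H = Nat.card (H ⧸ M) * Nat.card M :=
      Subgroup.card_eq_card_quotient_mul_card_subgroup M
    have hsum : sm B {g | g ∈ (⊤ : Subgroup H) ∧ g ∉ M} = Nat.card M * So Q ρ' ⊥ := by
      have e1 : sm B {g | g ∈ (⊤ : Subgroup H) ∧ g ∉ M} =
          ∑ h : H, if (h : H ⧸ M) = 1 then 0 else Q.b (ρ' (h : H ⧸ M)) := by
        unfold sm
        rw [Finset.sum_filter]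
        apply sum_congr rfl
        intro g _
        by_cases h1 : g ∈ M
        · rw [if_pos ((QuotientGroup.eq_one_iff g).2 h1), if_neg]
          rintro ⟨_, h2⟩
          exact h2 h1
        · rw [if_neg (fun h2 => h1 ((QuotientGroup.eq_one_iff g).1 h2)), if_pos]
          exact ⟨trivial, h1⟩
      have e2 : So Q ρ' ⊥ = ∑ q : H ⧸ M, if q = 1 then 0 else Q.b (ρ' q) := by
        unfold So sm
        rw [Finset.sum_filter]
        apply sum_congr rfl
        intro q _
        by_cases h1 : q = 1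
        · simp [h1]
        · simp [h1]
      rw [e1, e2]
      exact hap_sum M (fun q => if q = 1 then 0 else Q.b (ρ' q))
    have hUU : U (fun g => P.b (ρ g)) H l = U (fun h : H => P.b (ρ h)) (⊤ : Subgroup H) l := by
      unfold U
      rw [hap_sm H (fun g => P.b (ρ g)), Subgroup.card_top]
    rw [hUU]
    rw [hsum, Subgroup.card_top] at hU
    have hHpos : (0 : ℚ) < Nat.card H := by exact_mod_cast Nat.card_pos
    have h5 : (Nat.card H : ℚ) * U (fun h : H => P.b (ρ h)) (⊤ : Subgroup H) l =
        Nat.card H * n := by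
      rw [hU, hcH]
      have hn' : ((Nat.card (H ⧸ M) : ℕ) : ℚ) * n = B z' + So Q ρ' ⊥ := by exact_mod_cast hn
      push_cast
      linear_combination (-(Nat.card M : ℚ)) * hn'
    exact mul_left_cancel₀ hHpos.ne' h5

end Pool.CND
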